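import Pool.Agent.V11323.PPOdo

/-!
# A recurrent walk on a planar point process violating the tail condition (T)
-/

set_option autoImplicit false

open MeasureTheory ProbabilityTheory Filter Topology
open scoped ENNReal NNReal

namespace Pool.Agent.Results.MP_01c081_pr.TailNotNecessary

open Pool.Agent.V11323.PP

/-! ### A recurrence criterion -/

abbrev V2 : Type := ℤ × ℤ

lemma summ {F : V2 → ℝ} (h : (Function.support F).Finite) : Summable F :=
  summable_of_hasFiniteSupport h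

lemma fin_of_zero {F a : V2 → ℝ} (ha : (Function.support a).Finite)
    (h : ∀ z, a z = 0 → F z = 0) : (Function.support F).Finite :=
  ha.subset fun z hz => by
    by_contra hc
    exact hz (h z (by simpa using hc))

lemma fin_of_zero2 {F a : V2 → ℝ} (σ : V2 ≃ V2) (ha : (Function.support a).Finite)
    (h : ∀ z, a z = 0 → a (σ z) = 0 → F z = 0) : (Function.support F).Finite := by
  have h1 : (σ ⁻¹' (Function.support a)).Finite := ha.preimage σ.injective.injOn
  refine (ha.union h1).subset fun z hz => ?_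
  by_contra hc
  rw [Set.mem_union, not_or] at hc
  exact hz (h z (by simpa using hc.1) (by simpa using hc.2))

lemma half_identity (u f : V2 → ℝ) (σ : V2 ≃ V2) (hf : (Function.support f).Finite) :
    ∑' z, f z ^ 2 * u z * (u z - u (σ z)) + ∑' z, f z ^ 2 * u z * (u z - u (σ.symm z)) =
      ∑' z, (f z * u z - f (σ z) * u (σ z)) ^ 2 -
        ∑' z, u z * u (σ z) * (f z - f (σ z)) ^ 2 := by
  have h1 := Equiv.tsum_eq σ (fun z => f z ^ 2 * u z * (u z - u (σ.symm z)))
  simp only [Equiv.symm_apply_apply] at h1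
  rw [← h1, ← Summable.tsum_add, ← Summable.tsum_sub]
  · refine tsum_congr fun z => ?_
    ring
  · exact summ (fin_of_zero2 σ hf fun z h2 h3 => by rw [h2, h3]; ring)
  · exact summ (fin_of_zero2 σ hf fun z h2 h3 => by rw [h2, h3]; ring)
  · exact summ (fin_of_zero2 σ hf fun z h2 h3 => by rw [h2]; ring)
  · exact summ (fin_of_zero2 σ hf fun z h2 h3 => by rw [h3]; ring)

/-- the key estimate -/
lemma key_est (u f : V2 → ℝ) (σ τ : V2 ≃ V2) (hf : (Function.support f).Finite)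
    (hu0 : u 0 = 0) (hub : ∀ z, 0 ≤ u z ∧ u z ≤ 1)
    (hu : ∀ z, z ≠ 0 → 4 * u z = u (σ z) + u (σ.symm z) + (u (τ z) + u (τ.symm z))) :
    ∑' z, (f z * u z - f (σ z) * u (σ z)) ^ 2 + ∑' z, (f z * u z - f (τ z) * u (τ z)) ^ 2 ≤
      ∑' z, (f z - f (σ z)) ^ 2 + ∑' z, (f z - f (τ z)) ^ 2 := by
  have h1 := half_identity u f σ hf
  have h2 := half_identity u f τ hf
  have h3 : ∑' z, f z ^ 2 * u z * (u z - u (σ z)) + ∑' z, f z ^ 2 * u z * (u z - u (σ.symm z)) +
      (∑' z, f z ^ 2 * u z * (u z - u (τ z)) + ∑' z, f z ^ 2 * u z * (u z - u (τ.symm z))) = 0 := by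
    have s1 : ∀ ρ : V2 ≃ V2, Summable fun z => f z ^ 2 * u z * (u z - u (ρ z)) := fun ρ =>
      summ (fin_of_zero hf fun z h => by rw [h]; ring)
    rw [← (s1 σ).tsum_add (s1 σ.symm), ← (s1 τ).tsum_add (s1 τ.symm),
      ← ((s1 σ).add (s1 σ.symm)).tsum_add ((s1 τ).add (s1 τ.symm))]
    rw [← tsum_zero (α := ℝ) (β := V2)]
    refine tsum_congr fun z => ?_
    by_cases hz : z = 0
    · rw [hz, hu0]; ring
    · have := hu z hz
      have e : f z ^ 2 * u z * (u z - u (σ z)) + f z ^ 2 * u z * (u z - u (σ.symm z)) +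
          (f z ^ 2 * u z * (u z - u (τ z)) + f z ^ 2 * u z * (u z - u (τ.symm z))) =
          f z ^ 2 * u z * (4 * u z - (u (σ z) + u (σ.symm z) + (u (τ z) + u (τ.symm z)))) := by
        ring
      rw [e, this]; ring
  have h4 : ∀ ρ : V2 ≃ V2, ∑' z, u z * u (ρ z) * (f z - f (ρ z)) ^ 2 ≤
      ∑' z, (f z - f (ρ z)) ^ 2 := by
    intro ρ
    refine Summable.tsum_le_tsum (fun z => ?_) ?_ ?_
    · have a1 := hub z
      have a2 := hub (ρ z)
      have a3 : u z * u (ρ z) ≤ 1 := mul_le_one₀ a1.2 a2.1 a2.2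
      have a4 := sq_nonneg (f z - f (ρ z))
      nlinarith
    · exact summ (fin_of_zero2 ρ hf fun z h2 h3 => by rw [h2, h3]; ring)
    · exact summ (fin_of_zero2 ρ hf fun z h2 h3 => by rw [h2, h3]; ring)
  have h5 := h4 σ
  have h6 := h4 τ
  linarith

/-- if the energies of the test functions tend to `0`, then `u` vanishes at the neighbours -/
lemma vanish (u : V2 → ℝ) (σ τ : V2 ≃ V2) (hu0 : u 0 = 0) (hub : ∀ z, 0 ≤ u z ∧ u z ≤ 1)
    (hu : ∀ z, z ≠ 0 → 4 * u z = u (σ z) + u (σ.symm z) + (u (τ z) + u (τ.symm z)))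
    (hE : ∀ ε : ℝ, 0 < ε → ∃ f : V2 → ℝ, (Function.support f).Finite ∧ f 0 = 1 ∧
      ∑' z, (f z - f (σ z)) ^ 2 + ∑' z, (f z - f (τ z)) ^ 2 ≤ ε) :
    u (σ 0) = 0 ∧ u (σ.symm 0) = 0 ∧ u (τ 0) = 0 ∧ u (τ.symm 0) = 0 := by
  -- a single term is bounded by the sum
  have hterm : ∀ (F : V2 → V2 → ℝ) (f : V2 → ℝ) (ρ : V2 ≃ V2) (z : V2),
      (Function.support f).Finite → (∀ z, f z = 0 → f (ρ z) = 0 → F z (ρ z) = 0) →
      F z (ρ z) ^ 2 ≤ ∑' z, F z (ρ z) ^ 2 := by
    intro F f ρ z hf h0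
    exact (summ (fin_of_zero2 (F := fun z => F z (ρ z) ^ 2) ρ hf
      (fun z h1 h2 => by rw [h0 z h1 h2]; ring))).le_tsum z
      (fun j _ => sq_nonneg _)
  have main : ∀ (ρ : V2 ≃ V2) (z z' : V2), (ρ = σ ∨ ρ = τ) → z' = ρ z → (z = 0 ∨ z' = 0) →
      u z + u z' = 0 := by
    intro ρ z z' hρ hz' hzero
    have h1 : ∀ ε : ℝ, 0 < ε → ε ≤ 1 / 4 → (u z + u z') ^ 2 ≤ 4 * ε := by
      intro ε hε hε4
      obtain ⟨f, hf, hf0, hfe⟩ := hE ε hε
      have h2 := key_est u f σ τ hf hu0 hub hu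
      have n1 : ∀ ρ : V2 ≃ V2, 0 ≤ ∑' z, (f z * u z - f (ρ z) * u (ρ z)) ^ 2 :=
        fun ρ => tsum_nonneg fun z => sq_nonneg _
      have n2 : ∀ ρ : V2 ≃ V2, 0 ≤ ∑' z, (f z - f (ρ z)) ^ 2 :=
        fun ρ => tsum_nonneg fun z => sq_nonneg _
      have h3 := hterm (fun z w => f z * u z - f w * u w) f ρ z hf
        (fun z a b => by rw [a, b]; ring)
      have h4 := hterm (fun z w => f z - f w) f ρ z hf (fun z a b => by rw [a, b]; ring)
      have h5 : (f z * u z - f (ρ z) * u (ρ z)) ^ 2 ≤ ε := by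
        rcases hρ with rfl | rfl
        · linarith [n1 τ]
        · linarith [n1 σ]
      have h6 : (f z - f (ρ z)) ^ 2 ≤ ε := by
        rcases hρ with rfl | rfl
        · linarith [n2 τ]
        · linarith [n2 σ]
      rw [← hz'] at h5 h6
      have h7 : (f z - f z') ^ 2 ≤ (1 / 2) ^ 2 := by linarith
      have h8 := abs_le_of_sq_le_sq h7 (by norm_num)
      have h9 := abs_le.mp h8
      rcases hzero with h0 | h0
      · rw [h0] at h5 h9 ⊢
        rw [hf0] at h9
        rw [hu0] at h5 ⊢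
        have h10 : 1 / 2 ≤ f z' := by linarith [h9.2]
        have h11 : (f z') ^ 2 * (u z') ^ 2 ≤ ε := by nlinarith
        have h12 : (1 / 4 : ℝ) ≤ (f z') ^ 2 := by nlinarith
        have h13 := sq_nonneg (u z')
        nlinarith
      · rw [h0] at h5 h9 ⊢
        rw [hf0] at h9
        rw [hu0] at h5 ⊢
        have h10 : 1 / 2 ≤ f z := by linarith [h9.1]
        have h11 : (f z) ^ 2 * (u z) ^ 2 ≤ ε := by nlinarith
        have h12 : (1 / 4 : ℝ) ≤ (f z) ^ 2 := by nlinarith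
        have h13 := sq_nonneg (u z)
        nlinarith
    have h2 : (u z + u z') ^ 2 ≤ 0 := by
      by_contra hc
      rw [not_le] at hc
      have h3 := h1 (min (1 / 4) ((u z + u z') ^ 2 / 8)) (by positivity) (min_le_left _ _)
      have h4 := min_le_right (1 / 4 : ℝ) ((u z + u z') ^ 2 / 8)
      linarith
    nlinarith [sq_nonneg (u z + u z')]
  have c1 := main σ 0 (σ 0) (Or.inl rfl) rfl (Or.inl rfl)
  have c2 := main σ (σ.symm 0) 0 (Or.inl rfl) (by simp) (Or.inr rfl)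
  have c3 := main τ 0 (τ 0) (Or.inr rfl) rfl (Or.inl rfl)
  have c4 := main τ (τ.symm 0) 0 (Or.inr rfl) (by simp) (Or.inr rfl)
  rw [hu0] at c1 c2 c3 c4
  refine ⟨by linarith, by linarith, by linarith, by linarith⟩

/-! ### The test functions -/

/-- harmonic numbers -/
noncomputable def Hh (r : ℕ) : ℝ := ∑ k ∈ Finset.range r, 1 / ((k : ℝ) + 1)

lemma Hh_mono {r s : ℕ} (h : r ≤ s) : Hh r ≤ Hh s := by
  unfold Hh
  exact Finset.sum_le_sum_of_subset_of_nonneg (Finset.range_mono h) (fun i _ _ => by positivity)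

lemma Hh_diff (r s : ℕ) (h : r ≤ s) : Hh s - Hh r ≤ (s - r) / ((r : ℝ) + 1) := by
  obtain ⟨d, rfl⟩ := Nat.exists_eq_add_of_le h
  induction d with
  | zero => simp
  | succ d ih =>
    have ih' := ih (by omega)
    have h1 : Hh (r + (d + 1)) = Hh (r + d) + 1 / (((r + d : ℕ) : ℝ) + 1) := by
      unfold Hh
      rw [← add_assoc, Finset.sum_range_succ]
    have h2 : 1 / (((r + d : ℕ) : ℝ) + 1) ≤ 1 / ((r : ℝ) + 1) := by
      apply one_div_le_one_div_of_le (by positivity)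
      push_cast
      have : (0 : ℝ) ≤ d := Nat.cast_nonneg d
      linarith
    rw [h1]
    have h3 : (((r + (d + 1) : ℕ) : ℝ) - r) / ((r : ℝ) + 1) =
        (((r + d : ℕ) : ℝ) - r) / ((r : ℝ) + 1) + 1 / ((r : ℝ) + 1) := by
      push_cast
      field_simp
      ring
    rw [h3]
    linarith

lemma Hh_pow (n : ℕ) : (n : ℝ) / 2 ≤ Hh (2 ^ n) := by
  induction n with
  | zero => unfold Hh; norm_num
  | succ n ih =>
    have h0 : 2 ^ n ≤ 2 ^ (n + 1) := Nat.pow_le_pow_right (by norm_num) (by omega)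
    have h1 : Hh (2 ^ (n + 1)) = Hh (2 ^ n) + ∑ k ∈ Finset.Ico (2 ^ n : ℕ) (2 ^ (n + 1) : ℕ),
        1 / ((k : ℝ) + 1) := by
      unfold Hh
      rw [Finset.sum_range_add_sum_Ico _ h0]
    have h2 : ∑ k ∈ Finset.Ico (2 ^ n : ℕ) (2 ^ (n + 1) : ℕ), (1 / (2 ^ (n + 1) : ℝ)) ≤
        ∑ k ∈ Finset.Ico (2 ^ n : ℕ) (2 ^ (n + 1) : ℕ), 1 / ((k : ℝ) + 1) := by
      apply Finset.sum_le_sum
      intro k hk
      rw [Finset.mem_Ico] at hk
      apply one_div_le_one_div_of_le (by positivity)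
      have : k + 1 ≤ 2 ^ (n + 1) := hk.2
      exact_mod_cast this
    rw [Finset.sum_const, Nat.card_Ico, nsmul_eq_mul] at h2
    have h3 : ((2 ^ (n + 1) - 2 ^ n : ℕ) : ℝ) * (1 / 2 ^ (n + 1)) = 1 / 2 := by
      have : 2 ^ (n + 1) - 2 ^ n = 2 ^ n := by rw [pow_succ]; omega
      rw [this, pow_succ]
      push_cast
      field_simp
    rw [h3] at h2
    rw [h1]
    push_cast
    linarith

/-- the size of a site -/
def rho (z : V2) : ℕ := z.1.natAbs + z.2.natAbs

/-- test function -/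
noncomputable def tf (R : ℕ) (z : V2) : ℝ := 1 - Hh (min (rho z) R) / Hh R

/-- weight -/
noncomputable def wt (R : ℕ) (z : V2) : ℝ := if rho z < R then 1 / ((rho z : ℝ) + 1) ^ 2 else 0

/-- the box -/
noncomputable def box (R : ℕ) : Finset V2 := Finset.Icc (-(R : ℤ)) R ×ˢ Finset.Icc (-(R : ℤ)) R

lemma mem_box {R : ℕ} {z : V2} (h : rho z ≤ R) : z ∈ box R := by
  unfold rho at h
  unfold box
  rw [Finset.mem_product, Finset.mem_Icc, Finset.mem_Icc]
  omega

lemma tf_supp {R : ℕ} (hR : 1 ≤ R) : (Function.support (tf R)).Finite := by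
  refine (box R).finite_toSet.subset fun z hz => ?_
  by_contra hc
  apply hz
  have h1 : R ≤ rho z := by
    by_contra h2
    exact hc (mem_box (by omega))
  unfold tf
  rw [min_eq_right h1]
  have : 0 < Hh R := by
    have := Hh_mono hR
    have h3 : Hh 1 = 1 := by unfold Hh; norm_num
    linarith
  rw [div_self this.ne', sub_self]

lemma wt_nonneg (R : ℕ) (z : V2) : 0 ≤ wt R z := by
  unfold wt
  split_ifs <;> positivity

lemma wt_supp (R : ℕ) : (Function.support (wt R)).Finite := by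
  refine (box R).finite_toSet.subset fun z hz => ?_
  by_contra hc
  apply hz
  unfold wt
  rw [if_neg]
  intro h
  exact hc (mem_box h.le)

lemma sphere_card (R r : ℕ) : ((box R).filter (fun z => rho z = r)).card ≤ 4 * (r + 1) := by
  have h1 : (box R).filter (fun z => rho z = r) ⊆
      (Finset.Icc (-(r : ℤ)) r).image (fun i => (i, (r : ℤ) - i.natAbs)) ∪
      (Finset.Icc (-(r : ℤ)) r).image (fun i => (i, -((r : ℤ) - i.natAbs))) := by
    intro z hz
    rw [Finset.mem_filter] at hz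
    obtain ⟨_, hz⟩ := hz
    unfold rho at hz
    rw [Finset.mem_union, Finset.mem_image, Finset.mem_image]
    rcases le_or_gt 0 z.2 with h | h
    · left
      refine ⟨z.1, by rw [Finset.mem_Icc]; omega, ?_⟩
      ext
      · rfl
      · simp only; omega
    · right
      refine ⟨z.1, by rw [Finset.mem_Icc]; omega, ?_⟩
      ext
      · rfl
      · simp only; omega
  refine (Finset.card_le_card h1).trans ((Finset.card_union_le _ _).trans ?_)
  have h2 := Finset.card_image_le (s := Finset.Icc (-(r : ℤ)) r)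
    (f := fun i : ℤ => (i, (r : ℤ) - i.natAbs))
  have h3 := Finset.card_image_le (s := Finset.Icc (-(r : ℤ)) r)
    (f := fun i : ℤ => (i, -((r : ℤ) - i.natAbs)))
  have h4 : (Finset.Icc (-(r : ℤ)) r).card = 2 * r + 1 := by
    rw [Int.card_Icc]; omega
  omega

lemma wt_sum (R : ℕ) : ∑' z, wt R z ≤ 4 * Hh R := by
  rw [tsum_eq_sum (s := box R)]
  · have h1 : ∑ z ∈ box R, wt R z = ∑ z ∈ (box R).filter (fun z => rho z < R), wt R z := by
      rw [Finset.sum_filter]
      refine Finset.sum_congr rfl fun z _ => ?_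
      unfold wt
      split_ifs <;> rfl
    rw [h1, ← Finset.sum_fiberwise_of_maps_to (t := Finset.range R) (g := rho)
      (fun z hz => Finset.mem_range.mpr (Finset.mem_filter.mp hz).2)]
    unfold Hh
    rw [Finset.mul_sum]
    refine Finset.sum_le_sum fun r hr => ?_
    have h2 : ∀ z ∈ ((box R).filter (fun z => rho z < R)).filter (fun z => rho z = r),
        wt R z = 1 / ((r : ℝ) + 1) ^ 2 := by
      intro z hz
      rw [Finset.mem_filter, Finset.mem_filter] at hz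
      unfold wt
      rw [if_pos hz.1.2, hz.2]
    rw [Finset.sum_congr rfl h2, Finset.sum_const, nsmul_eq_mul]
    have h3 : ((((box R).filter (fun z => rho z < R)).filter (fun z => rho z = r)).card : ℝ) ≤
        4 * (r + 1) := by
      have h4 : (((box R).filter (fun z => rho z < R)).filter (fun z => rho z = r)).card ≤
          ((box R).filter (fun z => rho z = r)).card := by
        apply Finset.card_le_card
        intro z hz
        rw [Finset.mem_filter, Finset.mem_filter] at hz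
        rw [Finset.mem_filter]
        exact ⟨hz.1.1, hz.2⟩
      have h5 := h4.trans (sphere_card R r)
      exact_mod_cast h5
    have h6 : (0 : ℝ) ≤ 1 / ((r : ℝ) + 1) ^ 2 := by positivity
    refine (mul_le_mul_of_nonneg_right h3 h6).trans (le_of_eq ?_)
    field_simp
  · intro z hz
    by_contra hc
    apply hz
    apply mem_box
    unfold wt at hc
    split_ifs at hc with h
    · exact h.le
    · exact absurd rfl hc

/-- energy in the direction `σ` -/
lemma energy_dir (R L : ℕ) (hR : 1 ≤ R) (σ : V2 ≃ V2)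
    (hσ : ∀ z, rho z < R ∨ rho (σ z) < R → rho (σ z) ≤ rho z + L ∧ rho z ≤ rho (σ z) + L) :
    ∑' z, (tf R z - tf R (σ z)) ^ 2 ≤ 8 * (L : ℝ) ^ 2 / Hh R := by
  have hH : 0 < Hh R := by
    have := Hh_mono hR
    have h3 : Hh 1 = 1 := by unfold Hh; norm_num
    linarith
  have key : ∀ a b : ℕ, a ≤ b → b ≤ a + L → a < R →
      (Hh (min b R) / Hh R - Hh (min a R) / Hh R) ^ 2 ≤
        (L : ℝ) ^ 2 / Hh R ^ 2 * (1 / ((a : ℝ) + 1) ^ 2) := by
    intro a b hab hbL haR
    have h1 : min a R = a := min_eq_left haR.le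
    have h2 : a ≤ min b R := le_min hab haR.le
    have h3 := Hh_diff a (min b R) h2
    have h4 := Hh_mono h2
    have h5 : ((min b R : ℕ) : ℝ) - a ≤ L := by
      have : min b R ≤ a + L := (min_le_left _ _).trans hbL
      have : ((min b R : ℕ) : ℝ) ≤ a + L := by exact_mod_cast this
      linarith
    have h6 : Hh (min b R) - Hh a ≤ L / ((a : ℝ) + 1) := by
      refine h3.trans ?_
      gcongr
    rw [h1, ← sub_div, div_pow]
    have h7 : (Hh (min b R) - Hh a) ^ 2 ≤ (L / ((a : ℝ) + 1)) ^ 2 :=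
      pow_le_pow_left₀ (by linarith) h6 2
    calc (Hh (min b R) - Hh a) ^ 2 / Hh R ^ 2 ≤ (L / ((a : ℝ) + 1)) ^ 2 / Hh R ^ 2 := by
          gcongr
      _ = _ := by field_simp
  have hb : ∀ z, (tf R z - tf R (σ z)) ^ 2 ≤
      (L : ℝ) ^ 2 / Hh R ^ 2 * (wt R z + wt R (σ z)) := by
    intro z
    have w1 := wt_nonneg R z
    have w2 := wt_nonneg R (σ z)
    have hC : 0 ≤ (L : ℝ) ^ 2 / Hh R ^ 2 := by positivity
    by_cases h : rho z < R ∨ rho (σ z) < R
    · obtain ⟨h1, h2⟩ := hσ z h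
      rcases le_total (rho z) (rho (σ z)) with h3 | h3
      · have h4 : rho z < R := by
          rcases h with h | h
          · exact h
          · omega
        have h5 := key _ _ h3 h1 h4
        have h6 : wt R z = 1 / ((rho z : ℝ) + 1) ^ 2 := by
          unfold wt; rw [if_pos h4]
        rw [← h6] at h5
        have h7 : (tf R z - tf R (σ z)) ^ 2 =
            (Hh (min (rho (σ z)) R) / Hh R - Hh (min (rho z) R) / Hh R) ^ 2 := by
          unfold tf; ring
        rw [h7]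
        nlinarith
      · have h4 : rho (σ z) < R := by
          rcases h with h | h
          · omega
          · exact h
        have h5 := key _ _ h3 h2 h4
        have h6 : wt R (σ z) = 1 / ((rho (σ z) : ℝ) + 1) ^ 2 := by
          unfold wt; rw [if_pos h4]
        rw [← h6] at h5
        have h7 : (tf R z - tf R (σ z)) ^ 2 =
            (Hh (min (rho z) R) / Hh R - Hh (min (rho (σ z)) R) / Hh R) ^ 2 := by
          unfold tf; ring
        rw [h7]
        nlinarith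
    · rw [not_or, not_lt, not_lt] at h
      have h1 : tf R z = tf R (σ z) := by
        unfold tf
        rw [min_eq_right h.1, min_eq_right h.2]
      rw [h1, sub_self]
      have := mul_nonneg hC (add_nonneg w1 w2)
      simpa using this
  have s1 := summ (wt_supp R)
  have s2 : Summable fun z => wt R (σ z) := (Equiv.summable_iff σ).mpr s1
  have s3 : Summable fun z => (tf R z - tf R (σ z)) ^ 2 :=
    summ (fin_of_zero2 σ (tf_supp hR) fun z a b => by rw [a, b]; ring)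
  calc ∑' z, (tf R z - tf R (σ z)) ^ 2
      ≤ ∑' z, (L : ℝ) ^ 2 / Hh R ^ 2 * (wt R z + wt R (σ z)) :=
        s3.tsum_le_tsum hb ((s1.add s2).mul_left _)
    _ = (L : ℝ) ^ 2 / Hh R ^ 2 * (∑' z, wt R z + ∑' z, wt R (σ z)) := by
        rw [tsum_mul_left, s1.tsum_add s2]
    _ = (L : ℝ) ^ 2 / Hh R ^ 2 * (2 * ∑' z, wt R z) := by
        rw [Equiv.tsum_eq σ (wt R)]; ring
    _ ≤ (L : ℝ) ^ 2 / Hh R ^ 2 * (2 * (4 * Hh R)) := by
        have := wt_sum R
        gcongr
    _ = _ := by field_simp; ring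

/-! ### Recurrence of the walk in coordinates -/

/-- crossing an edge in the horizontal direction -/
def sg (g : ℤ → ℕ) : V2 ≃ V2 where
  toFun z := (z.1 + 1, z.2 + g z.1)
  invFun z := (z.1 - 1, z.2 - g (z.1 - 1))
  left_inv z := by ext <;> simp
  right_inv z := by ext <;> simp

/-- crossing an edge in the vertical direction -/
def tg : V2 ≃ V2 where
  toFun z := (z.1 + 1, z.2)
  invFun z := (z.1 - 1, z.2)
  left_inv z := by ext <;> simp
  right_inv z := by ext <;> simp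

/-- never at the origin -/
def never (g : ℤ → ℕ) (z : V2) : Set (ℕ → Fin 4) := {ξ | ∀ n, crd g z ξ n ≠ 0}

lemma meas_never (g : ℤ → ℕ) (z : V2) : MeasurableSet (never g z) := by
  have : never g z = ⋂ n, {ξ | crd g z ξ n ≠ 0} := by
    ext ξ; simp [never]
  rw [this]
  exact MeasurableSet.iInter fun n => ((meas_crd g z n) (measurableSet_singleton 0)).compl

/-- probability of never hitting the origin -/
noncomputable def un (g : ℤ → ℕ) (z : V2) : ℝ := (dirLaw (never g z)).toReal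

lemma step_sum (g : ℤ → ℕ) (z : V2) :
    dirLaw {ξ | ∀ n, crd g z ξ (n + 1) ≠ 0} =
      ∑ e : Fin 4, (1 / 4 : ℝ≥0∞) * dirLaw (never g (stp g z e)) := by
  have hm : MeasurableSet {ξ : ℕ → Fin 4 | ∀ n, crd g z ξ (n + 1) ≠ 0} := by
    have : {ξ : ℕ → Fin 4 | ∀ n, crd g z ξ (n + 1) ≠ 0} =
        ⋂ n, {ξ | crd g z ξ (n + 1) ≠ 0} := by
      ext ξ; simp
    rw [this]
    exact MeasurableSet.iInter fun n =>
      ((meas_crd g z (n + 1)) (measurableSet_singleton 0)).compl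
  rw [first_step _ hm]
  refine Finset.sum_congr rfl fun e _ => ?_
  congr 2
  ext ξ
  simp only [Set.mem_ofPred_eq, never]
  refine forall_congr' fun n => ?_
  rw [crd_cons]

lemma never_eq (g : ℤ → ℕ) (z : V2) (hz : z ≠ 0) :
    never g z = {ξ | ∀ n, crd g z ξ (n + 1) ≠ 0} := by
  ext ξ
  simp only [never, Set.mem_ofPred_eq]
  constructor
  · intro h n
    exact h (n + 1)
  · intro h n
    cases n with
    | zero => exact hz
    | succ n => exact h n

lemma un_harm (g : ℤ → ℕ) (z : V2) (hz : z ≠ 0) :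
    4 * un g z = un g (sg g z) + un g ((sg g).symm z) + (un g (tg z) + un g (tg.symm z)) := by
  have h1 : un g z = 1 / 4 * un g (stp g z 0) + 1 / 4 * un g (stp g z 1) +
      1 / 4 * un g (stp g z 2) + 1 / 4 * un g (stp g z 3) := by
    have h4 : (1 / 4 : ℝ≥0∞).toReal = 1 / 4 := by
      rw [ENNReal.toReal_div]; norm_num
    have h5 : ∀ e, (1 / 4 : ℝ≥0∞) * dirLaw (never g (stp g z e)) ≠ ⊤ := fun e =>
      ENNReal.mul_ne_top (by
        rw [one_div]
        exact ENNReal.inv_ne_top.mpr (by norm_num)) (measure_ne_top _ _)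
    unfold un
    rw [never_eq g z hz, step_sum, Fin.sum_univ_four, ENNReal.toReal_add, ENNReal.toReal_add,
      ENNReal.toReal_add, ENNReal.toReal_mul, ENNReal.toReal_mul, ENNReal.toReal_mul,
      ENNReal.toReal_mul, h4]
    · exact h5 _
    · exact h5 _
    · exact ENNReal.add_ne_top.mpr ⟨h5 _, h5 _⟩
    · exact h5 _
    · exact ENNReal.add_ne_top.mpr ⟨ENNReal.add_ne_top.mpr ⟨h5 _, h5 _⟩, h5 _⟩
    · exact h5 _
  have e0 : stp g z 0 = sg g z := rfl
  have e1 : stp g z 1 = (sg g).symm z := rfl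
  have e2 : stp g z 2 = tg z := rfl
  have e3 : stp g z 3 = tg.symm z := rfl
  rw [e0, e1, e2, e3] at h1
  linarith

/-- scales on which the gaps are small -/
def Sparse (g : ℤ → ℕ) : Prop :=
  ∀ ε : ℝ, 0 < ε → ∃ R B : ℕ, 1 ≤ R ∧ (∀ i : ℤ, i.natAbs ≤ R → g i ≤ B) ∧
    16 * ((B : ℝ) + 1) ^ 2 / Hh R ≤ ε

lemma recurrent_crd (g : ℤ → ℕ) (hg : Sparse g) :
    ∀ᵐ ξ ∂dirLaw, ∃ n, crd g 0 ξ (n + 1) = 0 := by
  have hu0 : un g 0 = 0 := by
    unfold un never
    have : {ξ : ℕ → Fin 4 | ∀ n, crd g 0 ξ n ≠ 0} = ∅ := by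
      rw [Set.eq_empty_iff_forall_notMem]
      intro ξ hξ
      exact hξ 0 rfl
    rw [this]
    simp
  have hub : ∀ z, 0 ≤ un g z ∧ un g z ≤ 1 := fun z => by
    refine ⟨ENNReal.toReal_nonneg, ?_⟩
    have h1 : dirLaw (never g z) ≤ 1 := prob_le_one
    have := ENNReal.toReal_mono ENNReal.one_ne_top h1
    unfold un
    simpa using this
  obtain ⟨v1, v2, v3, v4⟩ := vanish (un g) (sg g) tg hu0 hub (un_harm g) (by
    intro ε hε
    obtain ⟨R, B, hR, hB, hE⟩ := hg ε hε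
    refine ⟨tf R, tf_supp hR, ?_, ?_⟩
    · unfold tf rho Hh
      simp
    · have e1 := energy_dir R (B + 1) hR (sg g) (by
        intro z hz
        have h1 : z.1.natAbs ≤ R := by
          rcases hz with h | h
          · unfold rho at h; omega
          · have h' : (z.1 + 1).natAbs + (z.2 + g z.1).natAbs < R := h
            omega
        have h2 := hB z.1 h1
        have h3 : rho (sg g z) = (z.1 + 1).natAbs + (z.2 + g z.1).natAbs := rfl
        have h4 : rho z = z.1.natAbs + z.2.natAbs := rfl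
        rw [h3, h4]
        omega)
      have e2 := energy_dir R (B + 1) hR tg (by
        intro z _
        have h3 : rho (tg z) = (z.1 + 1).natAbs + (z.2).natAbs := rfl
        have h4 : rho z = z.1.natAbs + z.2.natAbs := rfl
        rw [h3, h4]
        omega)
      push_cast at e1 e2
      have e3 : 16 * ((B : ℝ) + 1) ^ 2 / Hh R = 8 * ((B : ℝ) + 1) ^ 2 / Hh R +
          8 * ((B : ℝ) + 1) ^ 2 / Hh R := by ring
      linarith)
  have hz : ∀ e : Fin 4, dirLaw (never g (stp g 0 e)) = 0 := by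
    have key : ∀ z, un g z = 0 → dirLaw (never g z) = 0 := by
      intro z h
      unfold un at h
      rw [ENNReal.toReal_eq_zero_iff] at h
      rcases h with h | h
      · exact h
      · exact absurd h (measure_ne_top _ _)
    intro e
    fin_cases e
    · exact key _ v1
    · exact key _ v2
    · exact key _ v3
    · exact key _ v4
  rw [ae_iff]
  have h1 := step_sum g 0
  simp only [hz, mul_zero, Finset.sum_const_zero] at h1
  convert h1 using 2
  ext ξ
  simp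

/-! ### The environment -/

/-- the sparse levels -/
def nn : ℕ → ℕ
  | 0 => 1
  | v + 1 => 64 ^ nn v

lemma nn_lt (v : ℕ) : nn v < nn (v + 1) := by
  rw [nn]
  exact Nat.lt_pow_self (by norm_num)

lemma nn_mono : StrictMono nn := strictMono_nat_of_lt_succ nn_lt

lemma le_nn (v : ℕ) : v ≤ nn v := nn_mono.le_apply

/-- the sparse gap function -/
noncomputable def Gs : ℤ_[2] → ℕ := GA (Set.range nn)

lemma ae_lev : ∀ᵐ U ∂mu, ∃ V : ℕ, ∀ v, V ≤ v → ∀ i : ℤ, i.natAbs ≤ 2 ^ nn v →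
    lev (U + i) < nn v := by
  have h1 : ∀ v, mu {U | ∃ i : ℤ, i.natAbs ≤ 2 ^ nn v ∧ nn v ≤ lev (U + i)} ≤
      3 * (4⁻¹) ^ v := by
    intro v
    have hsub : {U : ℤ_[2] | ∃ i : ℤ, i.natAbs ≤ 2 ^ nn v ∧ nn v ≤ lev (U + i)} ⊆
        ⋃ i ∈ Finset.Icc (-(2 ^ nn v : ℤ)) (2 ^ nn v), {U | nn v ≤ lev (U + (i : ℤ_[2]))} := by
      rintro U ⟨i, hi, hl⟩
      simp only [Set.mem_iUnion]
      refine ⟨i, ?_, hl⟩
      rw [Finset.mem_Icc]
      have h3 : (i.natAbs : ℤ) ≤ 2 ^ nn v := by exact_mod_cast hi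
      omega
    have htr : ∀ i : ℤ, mu {U | nn v ≤ lev (U + (i : ℤ_[2]))} ≤ (8 ^ nn v : ℝ≥0∞)⁻¹ := by
      intro i
      have h3 : {U : ℤ_[2] | nn v ≤ lev (U + (i : ℤ_[2]))} =
          (fun U => (i : ℤ_[2]) + U) ⁻¹' {U | nn v ≤ lev U} := by
        ext U
        simp only [Set.mem_ofPred_eq, Set.mem_preimage]
        rw [add_comm]
      rw [h3, measure_preimage_add]
      exact mu_lev _
    refine (measure_mono hsub).trans ((measure_biUnion_finset_le _ _).trans ?_)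
    refine (Finset.sum_le_sum fun i _ => htr i).trans ?_
    rw [Finset.sum_const, nsmul_eq_mul, Int.card_Icc]
    have h3 : ((2 ^ nn v + 1 - -(2 ^ nn v) : ℤ).toNat) = 2 * 2 ^ nn v + 1 := by
      have : (2 ^ nn v + 1 - -(2 ^ nn v) : ℤ) = ((2 * 2 ^ nn v + 1 : ℕ) : ℤ) := by
        push_cast; ring
      rw [this, Int.toNat_natCast]
    rw [h3]
    have h4 : ((2 * 2 ^ nn v + 1 : ℕ) : ℝ≥0∞) ≤ 3 * 2 ^ nn v := by
      have : 2 * 2 ^ nn v + 1 ≤ 3 * 2 ^ nn v := by
        have := Nat.one_le_two_pow (n := nn v)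
        omega
      exact_mod_cast this
    calc ((2 * 2 ^ nn v + 1 : ℕ) : ℝ≥0∞) * (8 ^ nn v)⁻¹ ≤ 3 * 2 ^ nn v * (8 ^ nn v)⁻¹ := by
          gcongr
      _ = 3 * (4⁻¹) ^ nn v := by
          rw [mul_assoc]
          congr 1
          rw [ENNReal.inv_pow, ← mul_pow]
          congr 1
          rw [show (8 : ℝ≥0∞) = 2 * 4 by norm_num, ENNReal.mul_inv (by norm_num) (by norm_num),
            ← mul_assoc, ENNReal.mul_inv_cancel (by norm_num) (by norm_num), one_mul]
      _ ≤ 3 * (4⁻¹) ^ v := by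
          refine mul_le_mul' le_rfl ?_
          exact pow_le_pow_right_of_le_one' (ENNReal.inv_le_one.mpr (by norm_num)) (le_nn v)
  have h2 : ∑' v, mu {U | ∃ i : ℤ, i.natAbs ≤ 2 ^ nn v ∧ nn v ≤ lev (U + i)} ≠ ⊤ := by
    refine ne_top_of_le_ne_top ?_ (ENNReal.tsum_le_tsum h1)
    rw [ENNReal.tsum_mul_left, ENNReal.tsum_geometric]
    apply ENNReal.mul_ne_top (by norm_num)
    rw [Ne, ENNReal.inv_eq_top, tsub_eq_zero_iff_le, not_le]
    exact ENNReal.inv_lt_one.mpr (by norm_num)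
  have h3 := measure_setOfPred_frequently_eq_zero h2
  rw [ae_iff]
  refine measure_mono_null ?_ h3
  intro U hU
  simp only [Set.mem_ofPred_eq] at hU ⊢
  rw [Filter.frequently_atTop]
  intro a
  by_contra hc
  apply hU
  refine ⟨a, fun v hv i hi => ?_⟩
  by_contra hc2
  exact hc ⟨v, hv, i, hi, not_lt.mp hc2⟩

lemma sparse_ae : ∀ᵐ U ∂mu, Sparse (fun i : ℤ => Gs (U + i)) := by
  filter_upwards [ae_lev] with U hU
  obtain ⟨V, hV⟩ := hU
  intro ε hε
  obtain ⟨m, hm⟩ := exists_nat_gt (128 / ε)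
  set v := max V m with hv
  have hB1 : (1 : ℝ) ≤ 4 ^ nn v := one_le_pow₀ (by norm_num)
  refine ⟨2 ^ nn (v + 1), 4 ^ nn v, Nat.one_le_two_pow, ?_, ?_⟩
  · intro i hi
    have h1 := hV (v + 1) (by omega) i hi
    show Gs (U + i) ≤ 4 ^ nn v
    unfold Gs GA
    split_ifs with h2
    · obtain ⟨w, hw⟩ := h2
      rw [← hw] at h1 ⊢
      have h3 : w < v + 1 := nn_mono.lt_iff_lt.mp h1
      exact Nat.pow_le_pow_right (by norm_num) (nn_mono.monotone (by omega))
    · exact Nat.one_le_pow _ _ (by norm_num)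
  · have h1 := Hh_pow (nn (v + 1))
    have h2 : ((nn (v + 1) : ℕ) : ℝ) = 64 ^ nn v := by
      rw [nn]; push_cast; rfl
    rw [h2] at h1
    have h64 : (0 : ℝ) < 64 ^ nn v := by positivity
    have hHpos : 0 < Hh (2 ^ nn (v + 1)) := by linarith
    rw [div_le_iff₀ hHpos]
    push_cast
    have h3 : ((4 : ℝ) ^ nn v + 1) ^ 2 ≤ 4 * 16 ^ nn v := by
      have : (16 : ℝ) ^ nn v = 4 ^ nn v * 4 ^ nn v := by rw [← mul_pow]; norm_num
      rw [this]
      nlinarith
    have h4 : (64 : ℝ) ^ nn v = 4 ^ nn v * 16 ^ nn v := by rw [← mul_pow]; norm_num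
    have h5 : (m : ℝ) ≤ 4 ^ nn v := by
      have e1 : m ≤ nn v := (le_max_right V m).trans (le_nn v)
      have e2 : nn v < 4 ^ nn v := Nat.lt_pow_self (by norm_num)
      have e3 : m ≤ 4 ^ nn v := by omega
      exact_mod_cast e3
    have h6 : 128 < ε * 4 ^ nn v := by
      rw [div_lt_iff₀ hε] at hm
      nlinarith
    have h7 : (0 : ℝ) < 16 ^ nn v := by positivity
    calc 16 * ((4 : ℝ) ^ nn v + 1) ^ 2 ≤ 64 * 16 ^ nn v := by linarith
      _ ≤ ε * (64 ^ nn v / 2) := by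
          rw [h4]
          nlinarith
      _ ≤ ε * Hh (2 ^ nn (v + 1)) := mul_le_mul_of_nonneg_left h1 hε.le

/-! ### The result -/

/-- Condition (T). -/
def CondT (Q : Measure Env) : Prop :=
  ∃ C : ℝ≥0, ∀ e ∈ ({(1, 0), (0, 1)} : Set (ℤ × ℤ)), ∀ N : ℕ, 1 ≤ N →
    (∑' k : ℕ, if N ≤ k then (k : ℝ≥0∞) * palm Q {ω | fgap e ω = k} else 0) /
      (∫⁻ ω, (fgap e ω : ℝ≥0∞) ∂(palm Q)) ≤ C / N

/-- The walk on the process `Q` is almost surely recurrent (annealed law): for almost every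
configuration `ω` under the law `palm Q` and almost every sequence of directions, the walk
returns to the origin. -/
def RecurrentWalk (Q : Measure Env) : Prop :=
  ∀ᵐ ω ∂(palm Q), ∀ᵐ ξ ∂dirLaw, ∃ n, 0 < n ∧ pos ω ξ n = 0

lemma fgap_env (U : ℤ_[2]) : fgap (1, 0) (env Gs 0 U) = Gs U := by
  have h1 := fgap_pos (G := Gs) (GA_pos _) U (1, 0) 0 0 (by norm_num) (by rw [ps_zero]; simp)
  have h2 : shift 0 (env Gs 0 U) = env Gs 0 U := by
    funext y
    unfold shift
    rw [zero_add]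
  rw [h2] at h1
  rw [h1]
  simp

lemma not_condT : ¬ CondT (QQ Gs) := by
  rintro ⟨C, hC⟩
  have hpalm : palm (QQ Gs) = mu.map (env Gs 0) := palm_eq (meas_GA _) (GA_pos _) (GA_fin _)
  have hZ0 : Zc Gs ≠ 0 := Zc_pos (GA_pos _)
  have hZt : Zc Gs ≠ ⊤ := GA_fin _
  have hint : ∫⁻ ω, (fgap (1, 0) ω : ℝ≥0∞) ∂(palm (QQ Gs)) = Zc Gs := by
    rw [hpalm, lintegral_map]
    · unfold Zc
      simp only [fgap_env]
    · exact (Measurable.of_discrete (f := fun n : ℕ => (n : ℝ≥0∞))).comp (meas_fgap _)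
    · exact meas_env Gs (meas_GA _) 0
  have key : ∀ v, (2 : ℝ≥0∞) ^ nn v ≤ 2 * (C * Zc Gs) := by
    intro v
    set n := nn v with hn
    have h1 := hC (1, 0) (by simp) (4 ^ n) (Nat.one_le_pow _ _ (by norm_num))
    rw [hint, ENNReal.div_le_iff hZ0 hZt] at h1
    have h2 := le_trans (ENNReal.le_tsum (4 ^ n)) h1
    rw [if_pos le_rfl] at h2
    have h3 : (2 * 8 ^ n : ℝ≥0∞)⁻¹ ≤ palm (QQ Gs) {ω | fgap (1, 0) ω = 4 ^ n} := by
      have hm : MeasurableSet {ω : Env | fgap (1, 0) ω = 4 ^ n} :=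
        (meas_fgap (1, 0)) (measurableSet_singleton _)
      rw [hpalm, Measure.map_apply (meas_env Gs (meas_GA _) 0) hm]
      refine (mu_lev_eq n).trans (measure_mono ?_)
      intro U hU
      have hU' : lev U = n := hU
      show fgap (1, 0) (env Gs 0 U) = 4 ^ n
      rw [fgap_env]
      unfold Gs GA
      rw [hU', if_pos ⟨v, hn.symm⟩]
    have h4 : ((4 ^ n : ℕ) : ℝ≥0∞) * (2 * 8 ^ n : ℝ≥0∞)⁻¹ ≤ C / ((4 ^ n : ℕ) : ℝ≥0∞) * Zc Gs :=
      le_trans (by gcongr) h2
    have h5 : ((4 ^ n : ℕ) : ℝ≥0∞) ≠ 0 := by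
      have : (4 ^ n : ℕ) ≠ 0 := by positivity
      exact_mod_cast this
    have h6 : ((4 ^ n : ℕ) : ℝ≥0∞) ≠ ⊤ := ENNReal.natCast_ne_top _
    have h7 : ((4 ^ n : ℕ) : ℝ≥0∞) * (((4 ^ n : ℕ) : ℝ≥0∞) * (2 * 8 ^ n : ℝ≥0∞)⁻¹) ≤
        C * Zc Gs := by
      calc ((4 ^ n : ℕ) : ℝ≥0∞) * (((4 ^ n : ℕ) : ℝ≥0∞) * (2 * 8 ^ n : ℝ≥0∞)⁻¹)
          ≤ ((4 ^ n : ℕ) : ℝ≥0∞) * (C / ((4 ^ n : ℕ) : ℝ≥0∞) * Zc Gs) := by gcongr
        _ = C * Zc Gs := by
            rw [← mul_assoc, ENNReal.mul_div_cancel h5 h6]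
    have h8 : ((4 ^ n : ℕ) : ℝ≥0∞) * (((4 ^ n : ℕ) : ℝ≥0∞) * (2 * 8 ^ n : ℝ≥0∞)⁻¹) =
        2 ^ n * 2⁻¹ := by
      rw [ENNReal.mul_inv (Or.inr (by
        exact ENNReal.pow_ne_top (by norm_num))) (Or.inr (by positivity)), ENNReal.inv_pow]
      push_cast
      have e1 : (4 : ℝ≥0∞) ^ n * (4 ^ n * (2⁻¹ * (8⁻¹) ^ n)) =
          (4 * 4 * 8⁻¹) ^ n * 2⁻¹ := by
        rw [mul_pow, mul_pow]; ring
      rw [e1]
      congr 2
      rw [show (4 : ℝ≥0∞) * 4 = 2 * 8 by norm_num, mul_assoc,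
        ENNReal.mul_inv_cancel (by norm_num) (by norm_num), mul_one]
    rw [h8] at h7
    calc (2 : ℝ≥0∞) ^ n = 2 * (2 ^ n * 2⁻¹) := by
          rw [mul_comm, mul_assoc, ENNReal.inv_mul_cancel (by norm_num) (by norm_num), mul_one]
      _ ≤ 2 * (C * Zc Gs) := by gcongr
  have hfin : 2 * (C * Zc Gs) ≠ ⊤ :=
    ENNReal.mul_ne_top (by norm_num) (ENNReal.mul_ne_top ENNReal.coe_ne_top hZt)
  obtain ⟨m, hm⟩ := ENNReal.exists_nat_gt hfin
  have h1 := key m
  have h2 : (m : ℝ≥0∞) ≤ 2 ^ nn m := by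
    have e1 : nn m < 2 ^ nn m := Nat.lt_two_pow_self
    have e2 := le_nn m
    have e3 : m ≤ 2 ^ nn m := by omega
    exact_mod_cast e3
  exact absurd (h2.trans h1) (not_le.mpr hm)

/-- There is a planar discrete point process with a recurrent walk for which condition (T)
fails. -/
theorem result : ∃ Q : Measure Env, IsDPP Q ∧ RecurrentWalk Q ∧ ¬ CondT Q := by
  refine ⟨QQ Gs, QQ_dpp (meas_GA _) (GA_pos _) (GA_fin _), ?_, not_condT⟩
  unfold RecurrentWalk
  have hA : MeasurableSet {p : Env × (ℕ → Fin 4) | ∃ n, 0 < n ∧ pos p.1 p.2 n = 0} := by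
    have h1 : {p : Env × (ℕ → Fin 4) | ∃ n, 0 < n ∧ pos p.1 p.2 n = 0} =
        ⋃ n : ℕ, {p | 0 < n ∧ pos p.1 p.2 n = 0} := by
      ext p
      simp
    rw [h1]
    refine MeasurableSet.iUnion fun n => ?_
    exact (MeasurableSet.const _).inter ((meas_pos n) (measurableSet_singleton 0))
  refine palm_ae (meas_GA _) (GA_pos _) (GA_fin _)
    {p : Env × (ℕ → Fin 4) | ∃ n, 0 < n ∧ pos p.1 p.2 n = 0} hA ?_
  filter_upwards [sparse_ae] with U hU
  filter_upwards [recurrent_crd _ hU] with ξ hξ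
  obtain ⟨n, hn⟩ := hξ
  refine ⟨n + 1, Nat.succ_pos n, ?_⟩
  show pos (env Gs 0 U) ξ (n + 1) = 0
  rw [pos_zero_iff (G := Gs) (GA_pos _)]
  exact hn

end Pool.Agent.Results.MP_01c081_pr.TailNotNecessary
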